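import Mathlib

set_option autoImplicit false

/-!
# The spherical Bishop-Phelps-Bollobas modulus can exceed one for ranges with property beta

The domain is the five-dimensional `ℓ_1` space and the range is the plane whose unit ball is an
octagon, which has property `β` with constant `5/7`.
-/

namespace Pool.Agent.Results.MP_c24244_an.BoundFails

open scoped ENNReal

/-- The spherical Bishop-Phelps-Bollobas modulus: the supremum over all pairs `(x, T)` with
`‖x‖ = ‖T‖ = 1` and `‖T x‖ > 1 - ε` of the infimum over all pairs `(z, F)` with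
`‖z‖ = ‖F‖ = ‖F z‖ = 1` of `max {‖x - z‖, ‖T - F‖}`, as an element of `[0, ∞]`. -/
noncomputable def PhiS (X Y : Type) [NormedAddCommGroup X] [NormedSpace ℝ X]
    [NormedAddCommGroup Y] [NormedSpace ℝ Y] (ε : ℝ) : ℝ≥0∞ :=
  ⨆ (x : X) (T : X →L[ℝ] Y) (_ : ‖x‖ = 1 ∧ ‖T‖ = 1 ∧ 1 - ε < ‖T x‖),
    ⨅ (z : X) (F : X →L[ℝ] Y) (_ : ‖z‖ = 1 ∧ ‖F‖ = 1 ∧ ‖F z‖ = 1),
      ENNReal.ofReal (max ‖x - z‖ ‖T - F‖)

/-- Property `β` with constant `ρ`: there are unit vectors `y_α` and functionals `y*_α` of norm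
one with `y*_α(y_α) = 1`, `|y*_α(y_γ)| ≤ ρ` for `α ≠ γ`, and `‖v‖ = sup_α |y*_α(v)|`. -/
def PropertyBeta (Y : Type) [NormedAddCommGroup Y] [NormedSpace ℝ Y] (ρ : ℝ) : Prop :=
  ∃ (Λ : Type) (y : Λ → Y) (ys : Λ → (Y →L[ℝ] ℝ)),
    (∀ α, ‖y α‖ = 1) ∧ (∀ α, ‖ys α‖ = 1) ∧ (∀ α, ys α (y α) = 1) ∧
    (∀ α γ, α ≠ γ → |ys α (y γ)| ≤ ρ) ∧
    ∀ v : Y, IsLUB (Set.range fun α => |ys α v|) ‖v‖

/-- the domain, the five-dimensional `ℓ_1` space -/
abbrev XX : Type := PiLp 1 (fun _ : Fin 5 => ℝ)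

/-- the range, a plane in the four-dimensional `ℓ_∞` space -/
def WW : Submodule ℝ (Fin 4 → ℝ) where
  carrier := {w | w 2 = 5 / 7 * (w 0 + w 1) ∧ w 3 = 5 / 7 * (w 0 - w 1)}
  add_mem' := by
    rintro u v ⟨h1, h2⟩ ⟨h3, h4⟩
    constructor
    · simp only [Pi.add_apply]; linarith
    · simp only [Pi.add_apply]; linarith
  zero_mem' := by
    constructor <;> simp
  smul_mem' := by
    rintro t u ⟨h1, h2⟩
    constructor
    · simp only [Pi.smul_apply, smul_eq_mul]; rw [h1]; ring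
    · simp only [Pi.smul_apply, smul_eq_mul]; rw [h2]; ring

/-- points of the plane -/
noncomputable def mk (a b : ℝ) : WW := ⟨![a, b, 5 / 7 * (a + b), 5 / 7 * (a - b)], by
  constructor
  · simp
  · simp⟩

lemma norm_XX (x : XX) : ‖x‖ = ∑ i, |x i| := by
  rw [PiLp.norm_eq_sum (by norm_num)]
  simp

lemma abs_le_norm (w : WW) (k : Fin 4) : |w.1 k| ≤ ‖w‖ := by
  have := norm_le_pi_norm w.1 k
  simpa using this

lemma norm_le_of (w : WW) {r : ℝ} (hr : 0 ≤ r) (h : ∀ k, |w.1 k| ≤ r) : ‖w‖ ≤ r := by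
  have : ‖w.1‖ ≤ r := (pi_norm_le_iff_of_nonneg hr).mpr (by simpa using h)
  simpa using this

lemma exists_abs_eq (w : WW) : ∃ k, |w.1 k| = ‖w‖ := by
  by_contra hne
  push Not at hne
  have hlt : ∀ k, |w.1 k| < ‖w‖ := fun k => lt_of_le_of_ne (abs_le_norm w k) (hne k)
  have hpos : 0 < ‖w‖ := (abs_nonneg _).trans_lt (hlt 0)
  have : ‖w.1‖ < ‖w‖ := (pi_norm_lt_iff hpos).mpr (by simpa using hlt)
  simp at this

/-- the coordinate functionals -/
noncomputable def ys (k : Fin 4) : WW →L[ℝ] ℝ :=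
  (ContinuousLinearMap.proj k).comp WW.subtypeL

lemma ys_apply (k : Fin 4) (w : WW) : ys k w = w.1 k := rfl

/-- the points `y_α` -/
noncomputable def yy : Fin 4 → WW := ![mk 1 0, mk 0 1, mk (7 / 10) (7 / 10), mk (7 / 10) (-(7 / 10))]

lemma yy_val (k j : Fin 4) : |(yy k).1 j| ≤ if k = j then 1 else 5 / 7 := by
  fin_cases k <;> fin_cases j <;> simp [yy, mk, abs_le] <;> norm_num

lemma yy_self (k : Fin 4) : (yy k).1 k = 1 := by
  fin_cases k <;> simp [yy, mk] <;> norm_num

lemma beta_WW : PropertyBeta WW (5 / 7) := by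
  have hy : ∀ α, ‖yy α‖ = 1 := by
    intro α
    apply le_antisymm
    · apply norm_le_of _ zero_le_one
      intro j
      refine (yy_val α j).trans ?_
      split_ifs <;> norm_num
    · have := abs_le_norm (yy α) α
      rwa [yy_self, abs_one] at this
  refine ⟨Fin 4, yy, ys, hy, ?_, ?_, ?_, ?_⟩
  · intro α
    apply le_antisymm
    · apply ContinuousLinearMap.opNorm_le_bound _ zero_le_one
      intro w
      rw [ys_apply, one_mul]
      exact abs_le_norm w α
    · have h := (ys α).le_opNorm (yy α)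
      rw [ys_apply, yy_self, hy, mul_one, norm_one] at h
      exact h
  · intro α
    rw [ys_apply, yy_self]
  · intro α γ h
    rw [ys_apply]
    have := yy_val γ α
    rwa [if_neg (Ne.symm h)] at this
  · intro v
    constructor
    · rintro _ ⟨k, rfl⟩
      exact abs_le_norm v k
    · intro r hr
      obtain ⟨k, hk⟩ := exists_abs_eq v
      rw [← hk]
      exact hr ⟨k, rfl⟩

/-- the images of the unit vectors -/
noncomputable def PT : Fin 5 → WW :=
  ![mk 1 0, mk (7 / 10) (7 / 10), mk (-(7 / 10)) (7 / 10), mk (-1) 0, mk 0 (-1)]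

/-- the operator, as a linear map -/
noncomputable def T0 : XX →ₗ[ℝ] WW where
  toFun x := ∑ i, x i • PT i
  map_add' x y := by
    rw [← Finset.sum_add_distrib]
    exact Finset.sum_congr rfl fun i _ => by rw [PiLp.add_apply, add_smul]
  map_smul' t x := by
    rw [RingHom.id_apply, Finset.smul_sum]
    exact Finset.sum_congr rfl fun i _ => by rw [PiLp.smul_apply, smul_eq_mul, mul_smul]

/-- the operator -/
noncomputable def TT : XX →L[ℝ] WW := LinearMap.toContinuousLinearMap T0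

/-- unit vectors -/
noncomputable def ev (i : Fin 5) : XX := PiLp.single 1 i (1 : ℝ)

lemma norm_ev (i : Fin 5) : ‖ev i‖ = 1 := by
  rw [norm_XX, Finset.sum_eq_single i]
  · simp [ev]
  · intro j _ hj
    simp [ev, hj]
  · simp

lemma sum_ev (z : XX) : z = ∑ i, z i • ev i := by
  ext j
  simp [ev, Pi.single_apply]

lemma TT_apply (x : XX) : TT x = ∑ i, x i • PT i := rfl

lemma TT_ev (i : Fin 5) : TT (ev i) = PT i := by
  rw [TT_apply]
  rw [Finset.sum_eq_single i]
  · simp [ev]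
  · intro j _ hj
    simp [ev, hj]
  · simp

lemma norm_PT (i : Fin 5) : ‖PT i‖ ≤ 1 := by
  apply norm_le_of _ zero_le_one
  intro k
  fin_cases i <;> fin_cases k <;> simp [PT, mk, abs_le] <;> norm_num

lemma norm_TT : ‖TT‖ = 1 := by
  apply le_antisymm
  · apply ContinuousLinearMap.opNorm_le_bound _ zero_le_one
    intro x
    rw [TT_apply, one_mul, norm_XX]
    refine (norm_sum_le _ _).trans (Finset.sum_le_sum fun i _ => ?_)
    rw [norm_smul, Real.norm_eq_abs]
    exact mul_le_of_le_one_right (abs_nonneg _) (norm_PT i)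
  · have h := TT.le_opNorm (ev 0)
    rw [norm_ev, mul_one, TT_ev] at h
    refine le_trans ?_ h
    have := abs_le_norm (PT 0) 0
    simpa [PT, mk] using this

/-- the vector -/
noncomputable def xx : XX := ∑ i, (1 / 5 : ℝ) • ev i

lemma xx_apply (i : Fin 5) : xx i = 1 / 5 := by
  simp [xx, ev, Pi.single_apply]

lemma norm_xx : ‖xx‖ = 1 := by
  rw [norm_XX]
  simp only [xx_apply]
  norm_num

lemma TT_xx : (4 / 50 : ℝ) ≤ ‖TT xx‖ := by
  have h := abs_le_norm (TT xx) 1
  refine le_trans (le_of_eq ?_) h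
  rw [TT_apply]
  simp [xx_apply, Fin.sum_univ_succ, PT, mk]
  norm_num [abs_of_pos]

lemma dist_coord (i : Fin 5) (u : WW) {r : ℝ} (h : ‖PT i - u‖ < r) (k : Fin 4) :
    (PT i).1 k - u.1 k < r ∧ -r < (PT i).1 k - u.1 k := by
  have h1 : |(PT i - u).1 k| < r := (abs_le_norm _ k).trans_lt h
  have h2 : (PT i - u).1 k = (PT i).1 k - u.1 k := rfl
  rw [h2, abs_lt] at h1
  exact ⟨h1.2, h1.1⟩

lemma norm_coord (u : WW) (h : ‖u‖ ≤ 1) (k : Fin 4) : u.1 k ≤ 1 ∧ -1 ≤ u.1 k := by
  have h1 := (abs_le_norm u k).trans h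
  rw [abs_le] at h1
  exact ⟨h1.2, h1.1⟩

/-- the indices whose images are close to the facet `u_k = σ` -/
def near (k : Fin 4) (pos : Bool) : Finset (Fin 5) :=
  match k, pos with
  | 0, true => {0, 1}
  | 1, true => {1, 2}
  | 2, true => {0, 1}
  | 3, true => {0, 4}
  | 0, false => {2, 3}
  | 1, false => {4}
  | 2, false => {3, 4}
  | 3, false => {2, 3}

lemma near_card (k : Fin 4) (pos : Bool) : (near k pos).card ≤ 2 := by
  fin_cases k <;> cases pos <;> decide

set_option maxHeartbeats 4000000 in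
lemma far_dist (k : Fin 4) (pos : Bool) (i : Fin 5) (hi : i ∉ near k pos) (u : WW)
    (hu : ‖u‖ ≤ 1) (huk : u.1 k = if pos then 1 else -1) : 11 / 10 ≤ ‖PT i - u‖ := by
  by_contra hlt
  rw [not_le] at hlt
  have d0 := dist_coord i u hlt 0
  have d1 := dist_coord i u hlt 1
  have d2 := dist_coord i u hlt 2
  have d3 := dist_coord i u hlt 3
  have n0 := norm_coord u hu 0
  have n1 := norm_coord u hu 1
  have n2 := norm_coord u hu 2
  have n3 := norm_coord u hu 3
  obtain ⟨e2, e3⟩ := u.2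
  rw [e2] at n2 d2
  rw [e3] at n3 d3
  fin_cases k <;> cases pos <;> fin_cases i <;>
    first
      | (exfalso; revert hi; decide)
      | (simp only [PT, mk] at d0 d1 d2 d3
         simp at d0 d1 d2 d3 huk
         linarith [d0.1, d0.2, d1.1, d1.2, d2.1, d2.2, d3.1, d3.2,
           n0.1, n0.2, n1.1, n1.2, n2.1, n2.2, n3.1, n3.2])

lemma sum_bound (z : Fin 5 → ℝ) (N : Finset (Fin 5)) (hN : N.card ≤ 2)
    (hz : ∀ i, i ∉ N → z i ≤ 0) (hs : ∑ i, |z i| = 1) : 6 / 5 ≤ ∑ i, |1 / 5 - z i| := by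
  have h1 : ∀ i, |z i| + (1 / 5 - if i ∈ N then 2 / 5 else 0) ≤ |1 / 5 - z i| := by
    intro i
    split_ifs with h
    · have := abs_sub_abs_le_abs_sub (z i) (1 / 5)
      rw [abs_sub_comm, abs_of_pos (by norm_num : (0 : ℝ) < 1 / 5)] at this
      linarith
    · have h2 := hz i h
      rw [abs_of_nonpos h2, abs_of_nonneg (by linarith)]
      linarith
  have h2 := Finset.sum_le_sum fun i (_ : i ∈ Finset.univ) => h1 i
  rw [Finset.sum_add_distrib, hs, Finset.sum_sub_distrib, ← Finset.sum_filter,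
    Finset.filter_mem_eq_inter, Finset.univ_inter, Finset.sum_const, Finset.sum_const,
    Finset.card_univ, Fintype.card_fin, nsmul_eq_mul, nsmul_eq_mul] at h2
  have h3 : (N.card : ℝ) ≤ 2 := by exact_mod_cast hN
  norm_num at h2 ⊢
  linarith

lemma key (z : XX) (F : XX →L[ℝ] WW) (hz : ‖z‖ = 1) (hF : ‖F‖ = 1) (hFz : ‖F z‖ = 1) :
    11 / 10 ≤ max ‖xx - z‖ ‖TT - F‖ := by
  by_contra hlt
  rw [not_le, max_lt_iff] at hlt
  obtain ⟨hlt1, hlt2⟩ := hlt
  have hs : ∑ i, |z i| = 1 := by rw [← norm_XX, hz]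
  have hu : ∀ i, ‖F (ev i)‖ ≤ 1 := by
    intro i
    have := F.le_opNorm (ev i)
    rwa [hF, norm_ev, mul_one] at this
  have hd : ∀ i, ‖PT i - F (ev i)‖ < 11 / 10 := by
    intro i
    have h := (TT - F).le_opNorm (ev i)
    rw [norm_ev, mul_one, sub_apply, TT_ev] at h
    exact h.trans_lt hlt2
  obtain ⟨k, hk⟩ := exists_abs_eq (F z)
  rw [hFz] at hk
  have hexp : (F z).1 k = ∑ i, z i * (F (ev i)).1 k := by
    conv_lhs => rw [sum_ev z]
    rw [map_sum]
    have h1 : ∀ i, F (z i • ev i) = z i • F (ev i) := fun i => by rw [map_smul]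
    simp only [h1]
    have h2 := map_sum (ys k) (fun i => z i • F (ev i)) Finset.univ
    rw [ys_apply] at h2
    rw [h2]
    exact Finset.sum_congr rfl fun i _ => by rw [map_smul, smul_eq_mul, ys_apply]
  -- the sign
  obtain ⟨pos, hpos⟩ : ∃ pos : Bool, (F z).1 k = if pos then 1 else -1 := by
    rcases eq_or_eq_neg_of_abs_eq hk with h | h
    · exact ⟨true, by simpa using h⟩
    · exact ⟨false, by simpa using h⟩
  set σ : ℝ := if pos then 1 else -1 with hσ
  have hσ2 : σ * σ = 1 := by rw [hσ]; cases pos <;> norm_num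
  have hσa : |σ| = 1 := by rw [hσ]; cases pos <;> norm_num
  have hle : ∀ i, 0 ≤ |z i| - σ * (z i * (F (ev i)).1 k) := by
    intro i
    have h1 : |(F (ev i)).1 k| ≤ 1 := (abs_le_norm _ k).trans (hu i)
    have h2 : |σ * (z i * (F (ev i)).1 k)| ≤ |z i| := by
      rw [abs_mul, hσa, one_mul, abs_mul]
      exact mul_le_of_le_one_right (abs_nonneg _) h1
    linarith [(abs_le.mp h2).2]
  have hsum : ∑ i, (|z i| - σ * (z i * (F (ev i)).1 k)) = 0 := by
    rw [Finset.sum_sub_distrib, hs, ← Finset.mul_sum, ← hexp, hpos, hσ2, sub_self]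
  have heq : ∀ i, |z i| - σ * (z i * (F (ev i)).1 k) = 0 := by
    intro i
    exact (Finset.sum_eq_zero_iff_of_nonneg fun i _ => hle i).mp hsum i (Finset.mem_univ i)
  have hneg : ∀ i, i ∉ near k pos → z i ≤ 0 := by
    intro i hi
    by_contra hpz
    rw [not_le] at hpz
    have h1 := heq i
    rw [abs_of_pos hpz] at h1
    have h2 : z i * (1 - σ * (F (ev i)).1 k) = 0 := by linarith
    have h3 : 1 - σ * (F (ev i)).1 k = 0 := by
      rcases mul_eq_zero.mp h2 with h | h
      · exact absurd h hpz.ne'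
      · exact h
    have h4 : (F (ev i)).1 k = σ := by
      have : σ * (σ * (F (ev i)).1 k) = σ * 1 := by rw [← sub_eq_zero.mp h3]
      rw [← mul_assoc, hσ2, one_mul, mul_one] at this
      exact this
    exact absurd (far_dist k pos i hi (F (ev i)) (hu i) h4) (not_le.mpr (hd i))
  have hb := sum_bound z.ofLp (near k pos) (near_card k pos) hneg hs
  have hn : ‖xx - z‖ = ∑ i, |1 / 5 - z i| := by
    rw [norm_XX]
    exact Finset.sum_congr rfl fun i _ => by rw [PiLp.sub_apply, xx_apply]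
  rw [hn] at hlt1
  linarith

/-- There are real Banach spaces `X`, `Y`, with `Y` having property `β` with constant `5/7`,
such that the spherical Bishop-Phelps-Bollobas modulus of `(X, Y)` at `ε = 19/20` is at least
`11/10`; hence the proposed bound by `min {√(2ε) √((1+ρ)/(1-ρ)), 1}` fails. -/
theorem result :
    (∃ (X Y : Type) (_ : NormedAddCommGroup X) (_ : NormedSpace ℝ X) (_ : CompleteSpace X)
      (_ : NormedAddCommGroup Y) (_ : NormedSpace ℝ Y) (_ : CompleteSpace Y),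
      PropertyBeta Y (5 / 7) ∧ ENNReal.ofReal (11 / 10) ≤ PhiS X Y (19 / 20)) ∧
    ¬ ∀ ρ : ℝ, 0 ≤ ρ → ρ < 1 →
      ∀ (X Y : Type) (_ : NormedAddCommGroup X) (_ : NormedSpace ℝ X) (_ : CompleteSpace X)
        (_ : NormedAddCommGroup Y) (_ : NormedSpace ℝ Y) (_ : CompleteSpace Y),
        PropertyBeta Y ρ → ∀ ε : ℝ, 0 < ε → ε < 1 →
          PhiS X Y ε ≤
            ENNReal.ofReal (min (Real.sqrt (2 * ε) * Real.sqrt ((1 + ρ) / (1 - ρ))) 1) := by
  have hmain : ENNReal.ofReal (11 / 10) ≤ PhiS XX WW (19 / 20) := by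
    unfold PhiS
    refine le_iSup_of_le xx (le_iSup_of_le TT (le_iSup_of_le ⟨norm_xx, norm_TT, ?_⟩ ?_))
    · have := TT_xx
      linarith
    · refine le_iInf fun z => le_iInf fun F => le_iInf fun h => ?_
      exact ENNReal.ofReal_le_ofReal (key z F h.1 h.2.1 h.2.2)
  refine ⟨⟨XX, WW, inferInstance, inferInstance, inferInstance, inferInstance, inferInstance,
    inferInstance, beta_WW, hmain⟩, ?_⟩
  intro h
  have h1 := h (5 / 7) (by norm_num) (by norm_num) XX WW inferInstance inferInstance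
    inferInstance inferInstance inferInstance inferInstance beta_WW (19 / 20) (by norm_num)
    (by norm_num)
  have h2 := hmain.trans (h1.trans (ENNReal.ofReal_le_ofReal (min_le_right _ _)))
  rw [ENNReal.ofReal_le_ofReal_iff (by norm_num)] at h2
  norm_num at h2

end Pool.Agent.Results.MP_c24244_an.BoundFails
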